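import Pool.Agent.L7h17.TR.Stm

set_option autoImplicit false

open MvPolynomial Pool.Agent.L7h17 Pool.Agent.L7h17.TR

namespace Pool.Agent.L7h7.TR

theorem eval_smul_hom {F : MvPolynomial (Fin 3) ℝ} {n : ℕ} (hF : F.IsHomogeneous n) (c : ℝ)
    (v : Fin 3 → ℝ) : eval (c • v) F = c ^ n * eval v F := by
  rw [MvPolynomial.eval_eq', MvPolynomial.eval_eq', Finset.mul_sum]
  apply Finset.sum_congr rfl
  intro m hm
  have hd : m.degree = n := hF.degree_eq_sum_deg_support hm ▸ rfl
  simp only [Pi.smul_apply, smul_eq_mul, mul_pow, Finset.prod_mul_distrib]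
  rw [Finset.prod_pow_eq_pow_sum]
  have : ∑ i, m i = n := by
    rw [← hd, Finsupp.degree_eq_sum]
  rw [this]
  ring

theorem s_LINE : S_LINE := by
  intro F hF h0 θ
  set g : Fin 3 → Polynomial ℝ :=
    ![Polynomial.C (Real.cos θ), Polynomial.C (Real.sin θ), Polynomial.X] with hg
  set q : Polynomial ℝ := aeval g F with hq
  have hev : ∀ τ : ℝ, eval ![Real.cos θ, Real.sin θ, τ] F = q.eval τ := by
    intro τ
    have h1 : q.eval τ = eval (fun i => (g i).eval τ) F := by
      rw [hq]
      have := MvPolynomial.map_aeval g (Polynomial.evalRingHom τ) F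
      simp only [Polynomial.coe_evalRingHom] at this
      rw [this]
      have hc : (Polynomial.evalRingHom τ).comp (algebraMap ℝ (Polynomial ℝ)) = RingHom.id ℝ := by
        ext x
        simp
      rw [hc]
      rfl
    rw [h1]
    have e : (fun i => (g i).eval τ) = ![Real.cos θ, Real.sin θ, τ] := by
      funext i
      fin_cases i <;> simp [hg]
    rw [e]
  refine ⟨q, ?_, ?_, hev⟩
  · rw [hq, MvPolynomial.aeval_def, MvPolynomial.eval₂_eq']
    apply Polynomial.natDegree_sum_le_of_forall_le
    intro m hm
    have hd : ∑ i, m i = 8 := by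
      have := hF (mem_support_iff.mp hm)
      rw [Finsupp.weight_apply, Finsupp.sum_fintype _ _ (by simp)] at this
      simpa using this
    rw [Fin.prod_univ_three]
    have e : g 0 = Polynomial.C (Real.cos θ) := rfl
    have e1 : g 1 = Polynomial.C (Real.sin θ) := rfl
    have e2 : g 2 = Polynomial.X := rfl
    rw [e, e1, e2]
    rw [Fin.sum_univ_three] at hd
    rw [← Polynomial.C_pow, ← Polynomial.C_pow, ← Polynomial.C_mul]
    have e3 : algebraMap ℝ (Polynomial ℝ) (coeff m F) = Polynomial.C (coeff m F) := rfl
    rw [e3, ← mul_assoc, ← Polynomial.C_mul]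
    refine (Polynomial.natDegree_C_mul_X_pow_le _ _).trans ?_
    omega
  · intro hq0
    apply h0
    have hz : ∀ τ : ℝ, eval ![Real.cos θ, Real.sin θ, τ] F = 0 := by
      intro τ; rw [hev, hq0]; simp
    have hc : Continuous (fun s : ℝ => eval ![s * Real.cos θ, s * Real.sin θ, 1] F) := by
      refine (MvPolynomial.continuous_eval F).comp ?_
      refine continuous_pi ?_
      intro i
      fin_cases i
      · exact continuous_id.mul continuous_const
      · exact continuous_id.mul continuous_const
      · exact continuous_const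
    have hs : ∀ s : ℝ, s ≠ 0 → eval ![s * Real.cos θ, s * Real.sin θ, 1] F = 0 := by
      intro s hs
      have : (![s * Real.cos θ, s * Real.sin θ, 1] : Fin 3 → ℝ) =
          s • ![Real.cos θ, Real.sin θ, s⁻¹] := by
        ext i
        fin_cases i <;> simp [hs]
      rw [this, eval_smul_hom hF, hz, mul_zero]
    have hall : (fun s : ℝ => eval ![s * Real.cos θ, s * Real.sin θ, 1] F) = fun _ => 0 :=
      Continuous.ext_on (dense_compl_singleton (0 : ℝ)) hc continuous_const
        (fun s hs' => hs s hs')
    have := congrFun hall 0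
    simpa using this

end Pool.Agent.L7h7.TR
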